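import Pool.Agent.H38.NP.TG

/-!
One-in-three satisfiability is NP-hard; cyclic successors in lists.
-/

namespace Pool.Agent.Lead.Ham

open Pool.Agent.H38.NP

abbrev F3 := List (Lit × Lit × Lit)

def Ex1 (x y z : Bool) : Prop := x.toNat + y.toNat + z.toNat = 1

instance (x y z) : Decidable (Ex1 x y z) := by unfold Ex1; infer_instance

def One3 (φ : F3) : Prop :=
  ∃ a : ℕ → Bool, ∀ C ∈ φ, Ex1 (a C.1.1 == C.1.2) (a C.2.1.1 == C.2.1.2) (a C.2.2.1 == C.2.2.2)

def tri (c : ℕ) (C : Lit × Lit × Lit) : F3 :=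
  [((2 * C.1.1, !C.1.2), (8 * c + 9, true), (8 * c + 11, true)),
    ((2 * C.2.1.1, C.2.1.2), (8 * c + 11, true), (8 * c + 13, true)),
    ((2 * C.2.2.1, !C.2.2.2), (8 * c + 13, true), (8 * c + 15, true))]

theorem one3_nph : NPH (fun φ : F3 => 0 < φ.length) One3 := by
  refine sat3_nph.reduce (fun φ => ((1, true), (1, true), (3, true)) ::
    φ.zipIdx.flatMap fun C => tri C.2 C.1) (by unfold tri; fun_prop) fun φ _ => ⟨by simp, ?_, ?_⟩
  · rintro ⟨a, ha⟩
    have k : ∀ x y z : Bool, ∃ g : Bool × Bool × Bool × Bool, (x = true ∨ y = true ∨ z = true) →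
        Ex1 (!x) g.1 g.2.1 ∧ Ex1 y g.2.1 g.2.2.1 ∧ Ex1 (!z) g.2.2.1 g.2.2.2 := by decide
    choose g hg using k
    let G : ℕ → Bool × Bool × Bool × Bool := fun c =>
      g (a (φ.getD c default).1.1 == (φ.getD c default).1.2)
        (a (φ.getD c default).2.1.1 == (φ.getD c default).2.1.2)
        (a (φ.getD c default).2.2.1 == (φ.getD c default).2.2.2)
    let b : ℕ → Bool := fun n => if n % 2 = 0 then a (n / 2) else if n < 8 then decide (n = 3) else
      if n % 8 = 1 then (G (n / 8 - 1)).1 else if n % 8 = 3 then (G (n / 8 - 1)).2.1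
      else if n % 8 = 5 then (G (n / 8 - 1)).2.2.1 else (G (n / 8 - 1)).2.2.2
    have b0 : ∀ v, b (2 * v) = a v := fun v => by simp [b]
    have b1 : ∀ c r, r < 8 → r % 2 = 1 → b (8 * c + (8 + r)) = if r = 1 then (G c).1 else
        if r = 3 then (G c).2.1 else if r = 5 then (G c).2.2.1 else (G c).2.2.2 := fun c r h1 h2 => by
      simp only [b, show (8 * c + (8 + r)) % 8 = r by omega, show (8 * c + (8 + r)) / 8 - 1 = c by omega]
      rw [if_neg (by omega), if_neg (by omega)]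
    refine ⟨b, fun T hT => ?_⟩
    simp only [List.mem_cons, List.mem_flatMap, Prod.exists, List.mem_zipIdx_iff_getElem?] at hT
    rcases hT with rfl | ⟨l1, l2, l3, l4, l5, l6, c, hc, hT⟩
    · simp [b, Ex1]
    have e : φ.getD c default = ((l1, l2), (l3, l4), l5, l6) := by simp [hc]
    obtain ⟨k1, k2, k3⟩ := hg (a l1 == l2) (a l3 == l4) (a l5 == l6)
      (by simpa using ha _ (List.mem_of_getElem? hc))
    have c1 := b1 c 1 (by omega) rfl
    have c3 := b1 c 3 (by omega) rfl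
    have c5 := b1 c 5 (by omega) rfl
    have c7 := b1 c 7 (by omega) rfl
    simp only [G, e] at c1 c3 c5 c7
    norm_num at c1 c3 c5 c7
    simp only [tri, List.mem_cons, List.not_mem_nil, or_false] at hT
    rcases hT with rfl | rfl | rfl <;> simp only [b0, c1, c3, c5, c7, beq_true]
    · convert k1 using 1; cases a l1 <;> cases l2 <;> rfl
    · exact k2
    · convert k3 using 1; cases a l5 <;> cases l6 <;> rfl
  · rintro ⟨a, ha⟩
    refine ⟨fun v => a (2 * v), fun C hC => ?_⟩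
    obtain ⟨c, hc⟩ := List.mem_iff_getElem?.1 hC
    have h : ∀ T ∈ tri c C, _ := fun T hT => ha T (List.mem_cons_of_mem _ (List.mem_flatMap.2
      ⟨(C, c), List.mem_zipIdx_iff_getElem?.2 hc, hT⟩))
    simp only [tri, List.forall_mem_cons, List.not_mem_nil, IsEmpty.forall_iff, implies_true,
      and_true] at h
    revert h
    beta_reduce
    generalize a (2 * C.1.1) = x1, C.1.2 = y1, a (2 * C.2.1.1) = x2, C.2.1.2 = y2,
      a (2 * C.2.2.1) = x3, C.2.2.2 = y3, a (8 * c + 9) = z1, a (8 * c + 11) = z2,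
      a (8 * c + 13) = z3, a (8 * c + 15) = z4
    revert x1 y1 x2 y2 x3 y3 z1 z2 z3 z4
    decide +kernel

theorem one3_iff (φ : F3) : One3 φ ↔ ∃ a : ℕ → Bool, ∀ c < φ.length,
    Ex1 (a (litAt φ (3 * c)).1 == (litAt φ (3 * c)).2)
      (a (litAt φ (3 * c + 1)).1 == (litAt φ (3 * c + 1)).2)
      (a (litAt φ (3 * c + 2)).1 == (litAt φ (3 * c + 2)).2) := by
  refine exists_congr fun a => ?_
  have e0 : ∀ c (hc : c < φ.length), litAt φ (3 * c) = φ[c].1 := fun c hc => by simp [litAt, hc]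
  have e1 : ∀ c (hc : c < φ.length), litAt φ (3 * c + 1) = φ[c].2.1 := fun c hc => by
    simp [litAt, hc, Nat.add_mod, show (3 * c + 1) / 3 = c by omega]
  have e2 : ∀ c (hc : c < φ.length), litAt φ (3 * c + 2) = φ[c].2.2 := fun c hc => by
    simp [litAt, hc, Nat.add_mod, show (3 * c + 2) / 3 = c by omega]
  constructor
  · intro h c hc
    rw [e0 c hc, e1 c hc, e2 c hc]
    exact h _ (List.getElem_mem hc)
  · intro h C hC
    obtain ⟨c, hc, rfl⟩ := List.getElem_of_mem hC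
    have := h c hc
    rwa [e0 c hc, e1 c hc, e2 c hc] at this

def rot (L : List ℕ) (k o : ℕ) : ℕ := L.getD ((L.idxOf o + k) % L.length) 0

theorem rot_get {L : List ℕ} (h : L.Nodup) (k i) (hi : i < L.length) :
    rot L k L[i] = L[(i + k) % L.length]'(Nat.mod_lt _ (by omega)) := by
  rw [rot, h.idxOf_getElem, List.getD_eq_getElem]

theorem rot_mem {L : List ℕ} (h : L.Nodup) (k) {o} (ho : o ∈ L) : rot L k o ∈ L := by
  obtain ⟨i, hi, rfl⟩ := List.getElem_of_mem ho
  rw [rot_get h]; exact List.getElem_mem _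

theorem rot_rot {L : List ℕ} (h : L.Nodup) {k k'} (hk : k + k' = L.length) {o} (ho : o ∈ L) :
    rot L k' (rot L k o) = o := by
  obtain ⟨i, hi, rfl⟩ := List.getElem_of_mem ho
  rw [rot_get h, rot_get h]
  congr 1
  rw [Nat.mod_add_mod, add_assoc, hk, Nat.add_mod_right, Nat.mod_eq_of_lt hi]

theorem rot_const {L : List ℕ} (h : L.Nodup) {f : ℕ → Bool} (hf : ∀ o ∈ L, f (rot L 1 o) = f o)
    {o o'} (ho : o ∈ L) (ho' : o' ∈ L) : f o = f o' := by
  have : ∀ i (hi : i < L.length), f L[i] = f (L[0]'(by omega)) := by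
    intro i
    induction i with
    | zero => exact fun _ => rfl
    | succ i ih =>
      intro hi
      rw [← ih (by omega), ← hf L[i] (List.getElem_mem _), rot_get h]
      simp only [Nat.mod_eq_of_lt hi]
  obtain ⟨i, hi, rfl⟩ := List.getElem_of_mem ho
  obtain ⟨j, hj, rfl⟩ := List.getElem_of_mem ho'
  rw [this i, this j]

def occ (φ : F3) (o : ℕ) : List ℕ :=
  (List.range (3 * φ.length)).filter fun u => decide ((litAt φ u).1 = (litAt φ o).1)

def nx (φ : F3) (o : ℕ) : ℕ := rot (occ φ o) 1 o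
def pv (φ : F3) (o : ℕ) : ℕ := rot (occ φ o) ((occ φ o).length - 1) o

theorem occ_nodup (φ o) : (occ φ o).Nodup := List.nodup_range.filter _
theorem mem_occ {φ o u} : u ∈ occ φ o ↔ u < 3 * φ.length ∧ (litAt φ u).1 = (litAt φ o).1 := by
  simp [occ]
theorem occ_eq {φ o u} (h : (litAt φ u).1 = (litAt φ o).1) : occ φ u = occ φ o := by
  simp only [occ, h]

theorem nx_spec {φ : F3} {o} (h : o < 3 * φ.length) : nx φ o < 3 * φ.length ∧
    (litAt φ (nx φ o)).1 = (litAt φ o).1 ∧ pv φ (nx φ o) = o := by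
  have h1 : o ∈ occ φ o := mem_occ.2 ⟨h, rfl⟩
  obtain ⟨h2, h3⟩ := mem_occ.1 (rot_mem (occ_nodup φ o) 1 h1)
  refine ⟨h2, h3, ?_⟩
  have := List.length_pos_of_mem h1
  rw [pv, occ_eq (u := nx φ o) h3]
  exact rot_rot (occ_nodup φ o) (by omega) h1

theorem pv_spec {φ : F3} {o} (h : o < 3 * φ.length) : pv φ o < 3 * φ.length ∧
    (litAt φ (pv φ o)).1 = (litAt φ o).1 ∧ nx φ (pv φ o) = o := by
  have h1 : o ∈ occ φ o := mem_occ.2 ⟨h, rfl⟩
  obtain ⟨h2, h3⟩ := mem_occ.1 (rot_mem (occ_nodup φ o) ((occ φ o).length - 1) h1)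
  refine ⟨h2, h3, ?_⟩
  have := List.length_pos_of_mem h1
  rw [nx, occ_eq (u := pv φ o) h3]
  exact rot_rot (occ_nodup φ o) (by omega) h1

theorem nx_const {φ : F3} {f : ℕ → Bool} (hf : ∀ o < 3 * φ.length, f (nx φ o) = f o) {o o'}
    (ho : o < 3 * φ.length) (ho' : o' < 3 * φ.length) (e : (litAt φ o').1 = (litAt φ o).1) :
    f o = f o' :=
  rot_const (occ_nodup φ o) (fun u hu => by
    rw [← occ_eq (mem_occ.1 hu).2]; exact hf u (mem_occ.1 hu).1) (mem_occ.2 ⟨ho, rfl⟩)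
    (mem_occ.2 ⟨ho', e⟩)

def sg (φ : F3) (o : ℕ) : ℕ := (litAt φ o).2.toNat

/-- the path linked to path `i` in the slot of position `t` -/
def par (φ : F3) (i t : ℕ) : ℕ :=
  cond (decide (t < 4)) (2 * (i / 2) + (1 - i % 2))
    (cond (decide (i % 2 = sg φ (i / 2))) (2 * nx φ (i / 2) + (1 - sg φ (nx φ (i / 2))))
      (2 * pv φ (i / 2) + sg φ (pv φ (i / 2))))

def mu (φ : F3) (c : ℕ × ℕ) : ℕ × ℕ :=
  cond (decide (c.2 < 8)) (par φ c.1 c.2, c.2)
    (cond (decide (c.2 = 9)) ((c.1 + 1) % (4 * φ.length), 8)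
      ((c.1 + (4 * φ.length - 1)) % (4 * φ.length), 9))

def site (φ : F3) (i : ℕ) : ℕ := cond (decide (i % 2 = 0)) (i / 6) (φ.length + i / 2)

def opt (φ : F3) (c d : ℕ × ℕ) : Bool :=
  (decide (c.2 < 7) && decide (d.2 = c.2 + 1) && decide (c.1 = d.1)) ||
  (decide (c.2 = 8) && decide (d.2 = 0) && decide (site φ d.1 = c.1)) ||
  (decide (c.2 = 7) && decide (d.2 = 9) && decide (site φ c.1 = d.1)) ||
  (decide (c.2 = 8) && decide (d.2 = 9) && decide (c.1 = d.1) && decide (φ.length ≤ c.1))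

def rel (h : ℕ) (φ : F3) (x y : (ℕ × ℕ) × ℕ) : Bool :=
  (decide (x.1 = y.1) && decide (x.2 + 1 = y.2)) ||
  (decide (x.2 = h + 1) && decide (y.2 = h + 1) && decide (mu φ x.1 = y.1)) ||
  (decide (x.2 = 0) && decide (y.2 = 0) && opt φ x.1 y.1)

def cores (φ : F3) : List (ℕ × ℕ) :=
  (List.range (6 * φ.length)).product (List.range 8) ++ (List.range (4 * φ.length)).product [8, 9]

def verts (h : ℕ) (φ : F3) : List ((ℕ × ℕ) × ℕ) := (cores φ).product (List.range (h + 2))

def red (h : ℕ) (φ : F3) : ℕ × List (ℕ × ℕ) :=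
  ((verts h φ).length, tgE (verts h φ) (rel h φ) ((0, 0), 0))

section
variable {α : Type} [Enc α] {φ : α → F3} {y z : α → ℕ}
@[fun_prop] theorem pt_occ (hE : PT φ) (hy : PT y) : PT fun a => occ (φ a) (y a) := by
  unfold occ; fun_prop
@[fun_prop] theorem pt_nx (hE : PT φ) (hy : PT y) : PT fun a => nx (φ a) (y a) := by
  unfold nx rot; fun_prop
@[fun_prop] theorem pt_pv (hE : PT φ) (hy : PT y) : PT fun a => pv (φ a) (y a) := by
  unfold pv rot; fun_prop
@[fun_prop] theorem pt_par (hE : PT φ) (hy : PT y) (hz : PT z) :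
    PT fun a => par (φ a) (y a) (z a) := by
  unfold par sg; fun_prop
@[fun_prop] theorem pt_mu {c : α → ℕ × ℕ} (hE : PT φ) (hy : PT c) : PT fun a => mu (φ a) (c a) := by
  unfold mu; fun_prop
@[fun_prop] theorem pt_opt {c d : α → ℕ × ℕ} (hE : PT φ) (hy : PT c) (hz : PT d) :
    PT fun a => opt (φ a) (c a) (d a) := by
  unfold opt site; fun_prop
theorem pt_red (h : ℕ) : PT (red h) := by
  have : PT (verts h) := by unfold verts cores; fun_prop
  exact PT.mk this.length (PT.tgE _ this (by unfold rel; fun_prop))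
end

end Pool.Agent.Lead.Ham
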