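import Pool.Agent.Lead.Ham.Defs
import Pool.Agent.H38.NP.Graphs

/-!
Hamiltonian cycles as connected two-regular spanning subgraphs; graphs with long forced paths.
-/

namespace Pool.Agent.Lead.Ham

open SimpleGraph Pool.Agent.H38.NP

section
variable {V : Type} [Fintype V] [DecidableEq V] {G : SimpleGraph V}

theorem ham_sub (hc : Fintype.card V ≠ 1) (h : G.IsHamiltonian) : ∃ H : SimpleGraph V, H ≤ G ∧
    (∀ v, ∃ a b, a ≠ b ∧ ∀ w, H.Adj v w ↔ w = a ∨ w = b) ∧ H.Preconnected := by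
  obtain ⟨a, p, hp⟩ := h hc
  refine ⟨p.toSubgraph.spanningCoe, p.toSubgraph.spanningCoe_le, fun v => ?_, fun u v => ?_⟩
  · obtain ⟨x, y, h1, h2⟩ := Set.ncard_eq_two.1
      (hp.isCycle.ncard_neighborSet_toSubgraph_eq_two (hp.mem_support v))
    exact ⟨x, y, h1, fun w => by simpa using Set.ext_iff.1 h2 w⟩
  · have := p.toSubgraph_connected.coe.preconnected ⟨u, by simpa using hp.mem_support u⟩
      ⟨v, by simpa using hp.mem_support v⟩
    exact this.map (⟨Subtype.val, fun h => h⟩ : p.toSubgraph.coe →g p.toSubgraph.spanningCoe)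

theorem ham_of_sub (H : SimpleGraph V) (h1 : H ≤ G)
    (h2 : ∀ v, ∃ a b, a ≠ b ∧ ∀ w, H.Adj v w ↔ w = a ∨ w = b) (v : V) (h3 : ∀ w, H.Reachable v w) :
    G.IsHamiltonian := by
  have hc : H.IsCycles := fun v _ => by
    obtain ⟨a, b, k1, k2⟩ := h2 v
    exact Set.ncard_eq_two.2 ⟨a, b, k1, Set.ext fun w => by simpa using k2 w⟩
  obtain ⟨a, b, -, k2⟩ := h2 v
  obtain ⟨p, k3, k4⟩ := hc.exists_cycle_toSubgraph_verts_eq_connectedComponentSupp
    (c := H.connectedComponentMk v) (v := v) (by simp) ⟨a, (k2 a).2 (Or.inl rfl)⟩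
  refine IsHamiltonian.mono h1 fun _ => ⟨v, p, k3, (k3.isPath_tail.isHamiltonian_iff).2 fun w => ?_⟩
  have : w ∈ p.support := by
    rw [← Walk.mem_verts_toSubgraph, k4]
    exact ConnectedComponent.sound (h3 w).symm
  rw [Walk.support_tail_of_not_nil _ k3.not_nil]
  rcases (Walk.mem_support_iff _).1 this with rfl | e
  · exact Walk.end_mem_tail_support k3.not_nil
  · exact e

theorem ham_iso {W : Type} [Fintype W] [DecidableEq W] {G' : SimpleGraph W} (e : G ≃g G')
    (h : G.IsHamiltonian) : G'.IsHamiltonian := fun hc =>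
  let ⟨_, p, hp⟩ := h (by rwa [Fintype.card_congr e.toEquiv])
  ⟨_, p.map e.toHom, hp.map e.bijective⟩

end

theorem ham_iff {n : ℕ} (G : SimpleGraph (Fin n)) :
    G.IsHamiltonian ↔ n = 1 ∨ (2 < n ∧ cycleGraph n ⊑ G) := by
  by_cases h : n = 1
  · exact iff_of_true (fun hc => absurd (by simpa using h) hc) (Or.inl h)
  constructor
  · intro hG
    obtain ⟨a, p, hp⟩ := hG (by simpa using h)
    have e : p.length = n := by simpa using hp.length_eq
    have : 2 < n := e ▸ hp.isCycle.three_le_length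
    exact Or.inr ⟨this, (cycleGraph_isContained_iff this).2 ⟨a, p, hp.isCycle, e⟩⟩
  · rintro (e | ⟨h1, h2⟩) _
    · exact absurd e h
    obtain ⟨a, p, k1, k2⟩ := (cycleGraph_isContained_iff h1).1 h2
    exact ⟨a, p, Walk.isHamiltonianCycle_iff_isCycle_and_length_eq.2 ⟨k1, by simpa using k2⟩⟩

def ver (p : ℕ × List (ℕ × ℕ)) (w : List ℕ) : Bool :=
  decide (p.1 = 1) || (decide (2 < p.1) && decide (w.length = p.1) && decide w.Nodup &&
    (List.range p.1).all fun i => decide (w.getD i 0 < p.1) &&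
      (decide ((w.getD i 0, w.getD ((i + 1) % p.1) 0) ∈ p.2) ||
        decide ((w.getD ((i + 1) % p.1) 0, w.getD i 0) ∈ p.2)))

theorem cyc_adj {n : ℕ} (hn : 2 < n) (u v : Fin n) :
    (cycleGraph n).Adj u v ↔ v.val = (u + 1) % n ∨ u.val = (v + 1) % n := by
  have k : ∀ a b : Fin n, (a - b).val = 1 ↔ a.val = (b + 1) % n := fun a b => by
    rw [Fin.val_sub]
    have := a.2
    have := b.2
    by_cases e : b.val ≤ a.val
    · rw [show n - b + a = (a - b) + n by omega, Nat.add_mod_right, Nat.mod_eq_of_lt (by omega)]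
      by_cases e' : b.val + 1 = n
      · rw [e', Nat.mod_self]; omega
      · rw [Nat.mod_eq_of_lt (by omega)]; omega
    · rw [Nat.mod_eq_of_lt (by omega)]
      by_cases e' : b.val + 1 = n
      · rw [e', Nat.mod_self]; omega
      · rw [Nat.mod_eq_of_lt (by omega)]; omega
  rw [cycleGraph_adj', k, k, or_comm]

theorem ham_NP (C : ℕ × List (ℕ × ℕ) → Prop) :
    InNPOn C fun p => (graphOf p.1 p.2).IsHamiltonian := by
  refine inNPOn_of_pt ver (by unfold ver; fun_prop) (B := fun p => p.1 * (2 * p.1 + 1))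
    (PT.nat_pb (by fun_prop)) (fun p _ h => ?_) fun p w _ h => (ham_iff _).2 ?_
  · rcases (ham_iff _).1 h with h | ⟨h1, ⟨f⟩⟩
    · exact ⟨[], by simp, by simp [ver, h]⟩
    refine ⟨List.ofFn fun i => (f i).val, ?_, ?_⟩
    · simpa using sz_le_of_forall (l := List.ofFn fun i => (f i).val) (B := p.1) (by simp)
    · simp only [ver, Bool.or_eq_true, Bool.and_eq_true, decide_eq_true_eq, List.all_eq_true,
        List.mem_range]
      refine Or.inr ⟨⟨⟨h1, by simp⟩, List.nodup_ofFn.2 fun a b e => f.injective (Fin.ext e)⟩,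
        fun i hi => ?_⟩
      have h2 : (i + 1) % p.1 < p.1 := Nat.mod_lt _ (by omega)
      have := (graphOf_adj.1 (f.toHom.map_adj ((cyc_adj h1 ⟨i, hi⟩ ⟨_, h2⟩).2 (Or.inl rfl)))).2
      simpa [hi, h2] using this
  · simp only [ver, Bool.or_eq_true, Bool.and_eq_true, decide_eq_true_eq, List.all_eq_true,
      List.mem_range] at h
    refine h.imp id ?_
    rintro ⟨⟨⟨h1, h2⟩, h3⟩, h4⟩
    let f : Fin p.1 → Fin p.1 := fun i => ⟨w.getD i 0, (h4 i i.2).1⟩
    have hf : Function.Injective f := fun a b e => by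
      have : w.getD a 0 = w.getD b 0 := congrArg Fin.val e
      rw [List.getD_eq_getElem _ _ (by omega), List.getD_eq_getElem _ _ (by omega)] at this
      exact Fin.ext ((List.Nodup.getElem_inj_iff h3).1 this)
    refine ⟨h1, ⟨⟨⟨f, fun {u v} huv => graphOf_adj.2 ⟨fun e => huv.ne (hf e), ?_⟩⟩, hf⟩⟩⟩
    rcases (cyc_adj h1 u v).1 huv with e | e
    · simpa only [f, e] using (h4 u u.2).2
    · simpa only [f, e] using (h4 v v.2).2.symm

/-- core data: a fixed-point-free involution (forced paths) and a graph of optional edges -/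
structure Core (K : Type) where
  μ : K → K
  O : K → K → Prop
  inv : ∀ c, μ (μ c) = c
  ne : ∀ c, μ c ≠ c
  symm : ∀ c d, O c d → O d c
  irr : ∀ c, ¬ O c c

variable {K : Type} (D : Core K) (h : ℕ)

def Core.tail : SimpleGraph (K × Fin (h + 2)) where
  Adj x y := (x.1 = y.1 ∧ (x.2.val + 1 = y.2 ∨ y.2.val + 1 = x.2)) ∨
    (x.2.val = h + 1 ∧ y.2.val = h + 1 ∧ D.μ x.1 = y.1) ∨ (x.2.val = 0 ∧ y.2.val = 0 ∧ D.O x.1 y.1)
  symm := ⟨fun x y k => by
    rcases k with ⟨k1, k2⟩ | ⟨k1, k2, k3⟩ | ⟨k1, k2, k3⟩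
    · exact Or.inl ⟨k1.symm, k2.symm⟩
    · exact Or.inr (Or.inl ⟨k2, k1, by rw [← k3, D.inv]⟩)
    · exact Or.inr (Or.inr ⟨k2, k1, D.symm _ _ k3⟩)⟩
  loopless := ⟨fun x k => by
    rcases k with ⟨_, k2⟩ | ⟨_, _, k3⟩ | ⟨_, _, k3⟩
    · omega
    · exact D.ne _ k3
    · exact D.irr _ k3⟩

theorem Core.adj (x y) : (D.tail h).Adj x y ↔ (x.1 = y.1 ∧ (x.2.val + 1 = y.2 ∨ y.2.val + 1 = x.2)) ∨
    (x.2.val = h + 1 ∧ y.2.val = h + 1 ∧ D.μ x.1 = y.1) ∨ (x.2.val = 0 ∧ y.2.val = 0 ∧ D.O x.1 y.1) :=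
  Iff.rfl

/-- the successor of a vertex on its forced path -/
def Core.up (x : K × Fin (h + 2)) : K × Fin (h + 2) :=
  if e : x.2.val = h + 1 then (D.μ x.1, x.2) else (x.1, ⟨x.2 + 1, by omega⟩)

def down (x : K × Fin (h + 2)) : K × Fin (h + 2) := (x.1, ⟨x.2 - 1, by omega⟩)

theorem Core.adj_pos {x : K × Fin (h + 2)} (hx : x.2.val ≠ 0) (y) :
    (D.tail h).Adj x y ↔ y = D.up h x ∨ y = down h x := by
  obtain ⟨c, s, hs⟩ := x
  obtain ⟨d, t, ht⟩ := y
  simp only [Core.adj, Core.up, down] at hx ⊢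
  split_ifs with e <;> simp only [Prod.mk.injEq, Fin.mk.injEq] <;> grind

theorem Core.up_ne {x : K × Fin (h + 2)} : D.up h x ≠ down h x := by
  obtain ⟨c, s, hs⟩ := x
  simp only [Core.up, down]
  split_ifs with e <;> simp only [ne_eq, Prod.mk.injEq, Fin.mk.injEq]
  · exact fun k => D.ne _ k.1
  · omega

theorem Core.free {j B : ℕ} (hj : j ≤ h + 1) (hB : B ≤ j) (σ κ : K → ℕ) (h1 : ∀ c d, D.O c d → σ c = σ d)
    (h2 : ∀ c, κ c < B) (h3 : ∀ c d, σ c = σ d → κ c = κ d → c = d) : (Hgraph j).Free (D.tail h) := by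
  rintro ⟨f⟩
  have hj0 : 0 < j := by have := h2 (f (.inl 0)).1; omega
  have lev : ∀ x a b c, a ≠ b → a ≠ c → b ≠ c → (Hgraph j).Adj x a → (Hgraph j).Adj x b →
      (Hgraph j).Adj x c → (f x).2.val = 0 := fun x a b c k1 k2 k3 k4 k5 k6 => by
    by_contra hx
    have e1 := (D.adj_pos h hx _).1 (f.toHom.map_adj k4)
    have e2 := (D.adj_pos h hx _).1 (f.toHom.map_adj k5)
    have e3 := (D.adj_pos h hx _).1 (f.toHom.map_adj k6)
    have n1 := f.injective.ne k1
    have n2 := f.injective.ne k2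
    have n3 := f.injective.ne k3
    rcases e1 with e1 | e1 <;> rcases e2 with e2 | e2 <;> rcases e3 with e3 | e3 <;>
      first | exact n1 (e1.trans e2.symm) | exact n2 (e1.trans e3.symm) | exact n3 (e2.trans e3.symm)
  have hp : ∀ a b : Fin (j + 1), a.val + 1 = b → (Hgraph j).Adj (.inl a) (.inl b) := fun a b e =>
    ⟨by simp only [ne_eq, Sum.inl.injEq, Fin.ext_iff]; omega, Or.inl (Or.inl ⟨a, b, rfl, rfl, e⟩)⟩
  have l0 : (f (.inl 0)).2.val = 0 := lev _ (.inl ⟨1, by omega⟩) (.inr (false, false))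
    (.inr (false, true)) (by simp) (by simp) (by simp) (hp _ _ rfl)
    (by simp [Hgraph]) (by simp [Hgraph])
  have l1 : (f (.inl (Fin.last j))).2.val = 0 := lev _ (.inl ⟨j - 1, by omega⟩) (.inr (true, false))
    (.inr (true, true)) (by simp) (by simp) (by simp) (hp _ _ (by simp; omega)).symm
    (by simp [Hgraph]) (by simp [Hgraph])
  let p : ℕ → K × Fin (h + 2) := fun i => f (.inl ⟨min i j, by omega⟩)
  have pa : ∀ i < j, (D.tail h).Adj (p i) (p (i + 1)) := fun i hi =>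
    f.toHom.map_adj (hp _ _ (by simp only; omega))
  have pi : ∀ a ≤ j, ∀ b ≤ j, p a = p b → a = b := fun a ha b hb e => by
    have := f.injective e
    simp only [Sum.inl.injEq, Fin.mk.injEq] at this
    omega
  have p0 : (p 0).2.val = 0 := by simpa [p] using l0
  have pj : (p j).2.val = 0 := by simpa [p, Fin.last] using l1
  have step : ∀ i, (p i).2.val = 0 → i < j → (p (i + 1)).2.val = 0 := by
    intro i hi hij
    by_contra hn
    have : ∀ t, i + t + 1 ≤ j → (p (i + t)).1 = (p (i + t + 1)).1 ∧ (p (i + t)).2.val = t ∧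
        (p (i + t + 1)).2.val = t + 1 := by
      intro t
      induction t with
      | zero => intro _; have := pa i hij; rw [Core.adj] at this; grind
      | succ t ih =>
        intro ht
        obtain ⟨k1, k2, k3⟩ := ih (by omega)
        have k4 := pa (i + t + 1) (by omega)
        have k5 : p (i + t) ≠ p (i + t + 1 + 1) := fun e => by
          have := pi _ (by omega) _ (by omega) e; omega
        rw [Core.adj] at k4
        rw [← add_assoc]
        rcases k4 with ⟨k6, k7 | k7⟩ | k6 | k6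
        · exact ⟨k6, k3, by omega⟩
        · exact absurd (Prod.ext (k1.trans k6) (Fin.ext (by omega))) k5
        · omega
        · omega
    have := (this (j - i - 1) (by omega)).2.2
    rw [show i + (j - i - 1) + 1 = j by omega] at this
    omega
  have all : ∀ i ≤ j, (p i).2.val = 0 ∧ σ (p i).1 = σ (p 0).1 := by
    intro i
    induction i with
    | zero => exact fun _ => ⟨p0, rfl⟩
    | succ i ih =>
      intro hi
      obtain ⟨k1, k2⟩ := ih (by omega)
      have k3 := step i k1 hi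
      have k4 := pa i hi
      rw [Core.adj] at k4
      refine ⟨k3, ?_⟩
      rcases k4 with k4 | k4 | k4
      · omega
      · omega
      · rw [← h1 _ _ k4.2.2, k2]
  have := Fintype.card_le_of_injective (fun i : Fin (j + 1) => (⟨κ (p i).1, h2 _⟩ : Fin B))
    fun a b e => Fin.ext (pi _ (by omega) _ (by omega) (Prod.ext
      (h3 _ _ ((all a (by omega)).2.trans (all b (by omega)).2.symm) (congrArg Fin.val e))
      (Fin.ext ((all a (by omega)).1.trans (all b (by omega)).1.symm))))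
  simp at this
  omega

/-- a perfect matching of optional edges that, with the forced paths, connects everything -/
def Core.Good (c0 : K) : Prop := ∃ ν : K → K, (∀ c, ν (ν c) = c) ∧ (∀ c, D.O c (ν c)) ∧
  ∀ S : K → Prop, S c0 → (∀ c, S c → S (D.μ c)) → (∀ c, S c → S (ν c)) → ∀ c, S c

variable [Fintype K] [DecidableEq K]

theorem Core.good_of_ham (c0 : K) (hG : (D.tail h).IsHamiltonian) : D.Good c0 := by
  obtain ⟨H, h1, h2, h3⟩ := ham_sub (by simp) hG
  have k1 : ∀ x : K × Fin (h + 2), x.2.val ≠ 0 → H.Adj x (down h x) := fun x hx => by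
    obtain ⟨a, b, e1, e2⟩ := h2 x
    have := (D.adj_pos h hx _).1 (h1 ((e2 a).2 (Or.inl rfl)))
    have := (D.adj_pos h hx _).1 (h1 ((e2 b).2 (Or.inr rfl)))
    rw [e2]; grind
  have k2 : ∀ c, ∃ d, D.O c d ∧ ∀ e, H.Adj (c, 0) (e, 0) ↔ e = d := fun c => by
    obtain ⟨a, b, e1, e2⟩ := h2 (c, 0)
    have e3 := (e2 _).1 (k1 (c, ⟨1, by omega⟩) (by simp)).symm
    have e4 : ∀ y, H.Adj (c, 0) y → y ≠ (c, ⟨1, by omega⟩) → y = (y.1, 0) ∧ D.O c y.1 := by
      rintro ⟨d, t, ht⟩ k3 k4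
      have := h1 k3
      simp only [Core.adj, ne_eq, Prod.mk.injEq, Fin.ext_iff, Fin.val_zero] at this k4 ⊢
      grind
    rcases e3 with rfl | rfl
    · obtain ⟨e6, e7⟩ := e4 b ((e2 b).2 (Or.inr rfl)) e1.symm
      exact ⟨b.1, e7, fun e => by rw [e2, e6]; simp⟩
    · obtain ⟨e6, e7⟩ := e4 a ((e2 a).2 (Or.inl rfl)) e1
      exact ⟨a.1, e7, fun e => by rw [e2, e6]; simp⟩
  choose ν n1 n2 using k2
  refine ⟨ν, fun c => ((n2 _ _).1 ((n2 c _).2 rfl).symm).symm, n1, fun S s0 s1 s2 c => ?_⟩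
  have : ∀ x y, H.Reachable x y → S x.1 → S y.1 := by
    rintro x y ⟨p⟩
    induction p with
    | nil => exact id
    | @cons x z y a p ih =>
      refine fun hx => ih ?_
      rcases h1 a with k | k | k
      · exact k.1 ▸ hx
      · exact k.2.2 ▸ s1 _ hx
      · obtain ⟨c, s⟩ := x
        obtain ⟨d, t⟩ := z
        obtain rfl : s = 0 := Fin.ext k.1
        obtain rfl : t = 0 := Fin.ext k.2.1
        exact (n2 _ _).1 a ▸ s2 _ hx
  exact this (c0, 0) (c, 0) (h3 _ _) s0

theorem Core.ham_of_good (c0 : K) (hG : D.Good c0) : (D.tail h).IsHamiltonian := by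
  obtain ⟨ν, n1, n2, n3⟩ := hG
  let D' : Core K := ⟨D.μ, fun c d => d = ν c, D.inv, D.ne, fun c d e => by rw [e, n1],
    fun c e => D.irr c (by simpa [← e] using n2 c)⟩
  have k : ∀ c s hs, (D'.tail h).Reachable (c, 0) (c, ⟨s, hs⟩) := fun c s => by
    induction s with
    | zero => exact fun _ => Reachable.refl _
    | succ s ih => exact fun hs => (ih (by omega)).trans (Adj.reachable (Or.inl ⟨rfl, Or.inl rfl⟩))
  refine ham_of_sub (D'.tail h) (fun x y k => k.imp id (Or.imp id fun k => ⟨k.1, k.2.1, ?_⟩))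
    (fun x => ?_) (c0, 0) fun x => ?_
  · rw [show y.1 = ν x.1 from k.2.2]; exact n2 _
  · by_cases hx : x.2.val = 0
    · refine ⟨(x.1, ⟨1, by omega⟩), (ν x.1, 0), by simp, fun y => ?_⟩
      simp only [Core.adj, Prod.ext_iff, Fin.ext_iff, Fin.val_zero, D']
      grind
    · exact ⟨_, _, D'.up_ne h, D'.adj_pos h hx⟩
  · refine (n3 (fun c => (D'.tail h).Reachable (c0, 0) (c, 0)) (Reachable.refl _) (fun c hc => ?_)
      (fun c hc => ?_) x.1).trans (k x.1 x.2 x.2.2)
    · exact hc.trans ((k c (h + 1) (by omega)).trans ((Adj.reachable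
        (Or.inr (Or.inl ⟨rfl, rfl, rfl⟩))).trans (k _ (h + 1) (by omega)).symm))
    · exact hc.trans (Adj.reachable (Or.inr (Or.inr ⟨rfl, rfl, rfl⟩)))

end Pool.Agent.Lead.Ham
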