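import Pool.Agent.Lead.Ham.One3
import Pool.Agent.Lead.Ham.Tail

/-!
Correctness of the reduction from one-in-three satisfiability to Hamiltonian cycle.
-/

namespace Pool.Agent.Lead.Ham

open Pool.Agent.H38.NP

variable {φ : F3}

def Val (φ : F3) (c : ℕ × ℕ) : Prop :=
  (c.2 < 8 ∧ c.1 < 6 * φ.length) ∨ ((c.2 = 8 ∨ c.2 = 9) ∧ c.1 < 4 * φ.length)

def OO (φ : F3) (c d : ℕ × ℕ) : Prop := opt φ c d = true ∨ opt φ d c = true

theorem site_eq (i) : (i % 2 = 0 ∧ site φ i = i / 6) ∨ (i % 2 = 1 ∧ site φ i = φ.length + i / 2) := by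
  rcases Nat.mod_two_eq_zero_or_one i with e | e <;> simp [site, e]

theorem OO_iff (i t j s : ℕ) : OO φ (i, t) (j, s) ↔
    (t < 7 ∧ s = t + 1 ∧ i = j) ∨ (t = 8 ∧ s = 0 ∧ site φ j = i) ∨ (t = 7 ∧ s = 9 ∧ site φ i = j) ∨
    (t = 8 ∧ s = 9 ∧ i = j ∧ φ.length ≤ i) ∨ (s < 7 ∧ t = s + 1 ∧ j = i) ∨
    (s = 8 ∧ t = 0 ∧ site φ i = j) ∨ (s = 7 ∧ t = 9 ∧ site φ j = i) ∨
    (s = 8 ∧ t = 9 ∧ j = i ∧ φ.length ≤ j) := by
  simp only [OO, opt, Bool.or_eq_true, Bool.and_eq_true, decide_eq_true_eq, and_assoc, or_assoc]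

theorem sg_le (o) : sg φ o ≤ 1 := Bool.toNat_le _

theorem par_lo {i t} (h : t < 4) : par φ i t = 2 * (i / 2) + (1 - i % 2) := by simp [par, h]
theorem par_nx {i t} (h : ¬ t < 4) (e : i % 2 = sg φ (i / 2)) :
    par φ i t = 2 * nx φ (i / 2) + (1 - sg φ (nx φ (i / 2))) := by simp [par, h, e]
theorem par_pv {i t} (h : ¬ t < 4) (e : i % 2 ≠ sg φ (i / 2)) :
    par φ i t = 2 * pv φ (i / 2) + sg φ (pv φ (i / 2)) := by simp [par, h, e]

theorem par_spec {i} (hi : i < 6 * φ.length) (t) :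
    par φ i t < 6 * φ.length ∧ par φ (par φ i t) t = i ∧ par φ i t ≠ i := by
  by_cases h : t < 4
  · simp only [par_lo h]; omega
  have s0 := sg_le (φ := φ) (i / 2)
  by_cases e : i % 2 = sg φ (i / 2)
  · obtain ⟨h1, -, h3⟩ := nx_spec (φ := φ) (o := i / 2) (by omega)
    have s1 := sg_le (φ := φ) (nx φ (i / 2))
    have k : (2 * nx φ (i / 2) + (1 - sg φ (nx φ (i / 2)))) / 2 = nx φ (i / 2) := by omega
    rw [par_nx h e, par_pv h (by rw [k]; omega), k, h3]
    refine ⟨by omega, by omega, fun e' => ?_⟩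
    have : nx φ (i / 2) = i / 2 := by omega
    rw [this] at e'; omega
  · obtain ⟨h1, -, h3⟩ := pv_spec (φ := φ) (o := i / 2) (by omega)
    have s1 := sg_le (φ := φ) (pv φ (i / 2))
    have k : (2 * pv φ (i / 2) + sg φ (pv φ (i / 2))) / 2 = pv φ (i / 2) := by omega
    rw [par_pv h e, par_nx h (by rw [k]; omega), k, h3]
    refine ⟨by omega, by omega, fun e' => ?_⟩
    have : pv φ (i / 2) = i / 2 := by omega
    rw [this] at e'; omega

theorem par_congr (i) {t s} (h : t < 4 ↔ s < 4) : par φ i t = par φ i s := by simp only [par, h]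

theorem mu_lo {i t} (h : t < 8) : mu φ (i, t) = (par φ i t, t) := by simp [mu, h]
theorem mu_9 (i) : mu φ (i, 9) = ((i + 1) % (4 * φ.length), 8) := by simp [mu]
theorem mu_8 (i) : mu φ (i, 8) = ((i + (4 * φ.length - 1)) % (4 * φ.length), 9) := by simp [mu]

theorem mu_spec {c} (h : Val φ c) : Val φ (mu φ c) ∧ mu φ (mu φ c) = c ∧ mu φ c ≠ c := by
  obtain ⟨i, t⟩ := c
  rcases h with ⟨h1, h2⟩ | ⟨rfl | rfl, h2⟩
  · obtain ⟨k1, k2, k3⟩ := par_spec h2 t
    rw [mu_lo h1, mu_lo h1, k2]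
    exact ⟨Or.inl ⟨h1, k1⟩, rfl, fun e => k3 (congrArg Prod.fst e)⟩
  · simp only at h2
    rw [mu_8, mu_9, Nat.mod_add_mod, add_assoc, Nat.sub_add_cancel (by omega), Nat.add_mod_right,
      Nat.mod_eq_of_lt h2]
    exact ⟨Or.inr ⟨Or.inr rfl, Nat.mod_lt _ (by omega)⟩, rfl, by simp⟩
  · simp only at h2
    rw [mu_9, mu_8, Nat.mod_add_mod, add_assoc, Nat.add_sub_cancel' (by omega), Nat.add_mod_right,
      Nat.mod_eq_of_lt h2]
    exact ⟨Or.inr ⟨Or.inl rfl, Nat.mod_lt _ (by omega)⟩, rfl, by simp⟩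

def Good' (φ : F3) : Prop := ∃ ν : ℕ × ℕ → ℕ × ℕ,
  (∀ c, Val φ c → Val φ (ν c) ∧ ν (ν c) = c ∧ OO φ c (ν c)) ∧
  ∀ S : ℕ × ℕ → Prop, S (0, 8) → (∀ c, Val φ c → S c → S (mu φ c)) →
    (∀ c, Val φ c → S c → S (ν c)) → ∀ c, Val φ c → S c

theorem no (h : Good' φ) : One3 φ := by
  obtain ⟨ν, h1, h2⟩ := h
  have v0 : ∀ {i t}, i < 6 * φ.length → t < 8 → Val φ (i, t) := fun hi ht => Or.inl ⟨ht, hi⟩
  have digon : ∀ i < 6 * φ.length, ∀ t, t < 7 → t ≠ 3 → ν (i, t) = (i, t + 1) →
      ν (par φ i t, t) ≠ (par φ i t, t + 1) := by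
    intro i hi t ht ht' e1 e2
    obtain ⟨k1, k2, -⟩ := par_spec hi t
    have e3 : ν (i, t + 1) = (i, t) := by rw [← e1, (h1 _ (v0 hi (by omega))).2.1]
    have e4 : ν (par φ i t, t + 1) = (par φ i t, t) := by rw [← e2, (h1 _ (v0 k1 (by omega))).2.1]
    have p : ∀ j, par φ j (t + 1) = par φ j t := fun j => par_congr j (by omega)
    refine h2 (fun c => ¬ ((c.1 = i ∨ c.1 = par φ i t) ∧ (c.2 = t ∨ c.2 = t + 1))) (by simp; omega)
      (fun c hc k k' => k ?_) (fun c hc k k' => k ?_) (i, t) (v0 hi (by omega)) (by simp)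
    · rw [← (mu_spec hc).2.1]
      generalize mu φ c = d at k'
      obtain ⟨j, s⟩ := d
      obtain ⟨a1 | a1, a2 | a2⟩ := k' <;> simp only at a1 a2 <;> rw [a1, a2, mu_lo (by omega)] <;>
        simp [p, k2]
    · rw [← (h1 c hc).2.1]
      generalize ν c = d at k'
      obtain ⟨j, s⟩ := d
      obtain ⟨a1 | a1, a2 | a2⟩ := k' <;> simp only at a1 a2 <;> rw [a1, a2] <;> simp [e1, e2, e3, e4]
  let us : ℕ → Bool := fun i => decide (ν (i, 0) = (site φ i, 8))
  have up : ∀ i < 6 * φ.length, ∀ t < 7, ν (i, t) = (i, t + 1) ↔ (us i = true ↔ t % 2 = 1) := by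
    intro i hi t
    induction t with
    | zero =>
      intro _
      have := (h1 _ (v0 hi (show 0 < 8 by omega))).2.2
      simp only [us, decide_eq_true_eq]
      generalize ν (i, 0) = d at this
      obtain ⟨j, s⟩ := d
      rw [OO_iff] at this
      simp only [Prod.mk.injEq]
      omega
    | succ t ih =>
      intro ht
      have k1 := ih (by omega)
      obtain ⟨-, k2, k3⟩ := h1 _ (v0 hi (show t + 1 < 8 by omega))
      have k4 := (h1 _ (v0 hi (show t < 8 by omega))).2.1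
      have : ν (i, t + 1) = (i, t + 1 + 1) ↔ ¬ ν (i, t) = (i, t + 1) := by
        constructor
        · intro e e'
          rw [e', e] at k4
          simp only [Prod.mk.injEq] at k4; omega
        · intro e
          by_contra e'
          have : ν (i, t + 1) = (i, t) := by
            generalize ν (i, t + 1) = d at k3 e'
            obtain ⟨j, s⟩ := d
            rw [OO_iff] at k3
            simp only [Prod.mk.injEq] at e' ⊢
            omega
          exact e (this ▸ k2)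
      rw [this, k1]
      cases us i <;> simp <;> omega
  have link : ∀ i < 6 * φ.length, ∀ t, t = 0 ∨ t = 4 → us (par φ i t) = !us i := by
    intro i hi t ht
    have k := (par_spec hi t).1
    have d1 := digon i hi t (by omega) (by omega)
    have d2 := digon i hi (t + 1) (by omega) (by omega)
    rw [par_congr i (t := t + 1) (s := t) (by omega)] at d2
    rw [Ne, up i hi t (by omega), up _ k t (by omega)] at d1
    rw [Ne, up i hi _ (by omega), up _ k _ (by omega)] at d2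
    revert d1 d2
    rcases ht with rfl | rfl <;> cases us i <;> cases us (par φ i _) <;> simp
  let f : ℕ → Bool := fun o => us (2 * o + (1 - sg φ o))
  have hf : ∀ o < 3 * φ.length, f (nx φ o) = f o := fun o ho => by
    have s := sg_le (φ := φ) o
    have k : (2 * o + sg φ o) / 2 = o := by omega
    have l1 := link (2 * o + sg φ o) (by omega) 0 (Or.inl rfl)
    have l2 := link (2 * o + sg φ o) (by omega) 4 (Or.inr rfl)
    rw [par_lo (by omega), k, show (2 * o + sg φ o) % 2 = sg φ o by omega] at l1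
    rw [par_nx (by omega) (by rw [k]; omega), k] at l2
    exact l2.trans l1.symm
  classical
  let a : ℕ → Bool := fun v => decide (∃ o < 3 * φ.length, (litAt φ o).1 = v ∧ f o = true)
  have ha : ∀ o < 3 * φ.length, (a (litAt φ o).1 == (litAt φ o).2) = us (2 * o) := fun o ho => by
    have e : a (litAt φ o).1 = f o := by
      rw [Bool.eq_iff_iff]
      simp only [a, decide_eq_true_eq]
      exact ⟨fun ⟨o', k1, k2, k3⟩ => (nx_const hf ho k1 k2).trans k3, fun k => ⟨o, ho, rfl, k⟩⟩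
    have l1 := link (2 * o) (by omega) 0 (Or.inl rfl)
    rw [par_lo (by omega), show 2 * (2 * o / 2) + (1 - 2 * o % 2) = 2 * o + 1 by omega] at l1
    rw [e]
    cases hs : (litAt φ o).2 <;> simp [f, sg, hs, l1]
  refine (one3_iff φ).2 ⟨a, fun c hc => ?_⟩
  rw [ha _ (by omega), ha _ (by omega), ha _ (by omega)]
  obtain ⟨k1, k2, k3⟩ := h1 (c, 8) (Or.inr ⟨Or.inl rfl, by simp only; omega⟩)
  have k4 : ∀ i < 6 * φ.length, i % 2 = 0 → i / 6 = c → (us i = true ↔ ν (c, 8) = (i, 0)) :=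
    fun i hi e1 e2 => by
    have : site φ i = c := by have := site_eq (φ := φ) i; omega
    simp only [us, this, decide_eq_true_eq]
    exact ⟨fun e => by rw [← e, (h1 _ (v0 hi (by omega))).2.1], fun e => by rw [← e, k2]⟩
  have e0 := k4 (2 * (3 * c)) (by omega) (by omega) (by omega)
  have e1 := k4 (2 * (3 * c + 1)) (by omega) (by omega) (by omega)
  have e2 := k4 (2 * (3 * c + 2)) (by omega) (by omega) (by omega)
  generalize ν (c, 8) = d at k3 e0 e1 e2
  obtain ⟨j, s⟩ := d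
  rw [OO_iff] at k3
  have := site_eq (φ := φ) j
  revert e0 e1 e2
  cases us (2 * (3 * c)) <;> cases us (2 * (3 * c + 1)) <;> cases us (2 * (3 * c + 2)) <;>
    simp [Ex1] <;> omega

theorem yes (h : One3 φ) : Good' φ := by
  obtain ⟨a, ha⟩ := (one3_iff φ).1 h
  let lit : ℕ → Bool := fun o => a (litAt φ o).1 == (litAt φ o).2
  let us : ℕ → Bool := fun i => if i % 2 = 0 then lit (i / 2) else !lit (i / 2)
  let ch : ℕ → ℕ := fun s => if s < φ.length then (if lit (3 * s) = true then 6 * s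
    else if lit (3 * s + 1) = true then 6 * s + 2 else 6 * s + 4) else 2 * (s - φ.length) + 1
  have u0 : ∀ o, us (2 * o) = lit o := fun o => by simp [us]
  have c1 : ∀ s < 4 * φ.length, ch s < 6 * φ.length ∧ site φ (ch s) = s := fun s hs => by
    have := site_eq (φ := φ) (ch s)
    revert this
    simp only [ch]
    split_ifs <;> omega
  have c2 : ∀ s < φ.length, us (ch s) = true := fun s hs => by
    have := ha s hs
    change Ex1 (lit _) (lit _) (lit _) at this
    simp only [ch, hs, if_true]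
    split_ifs with e1 e2
    · rw [show 6 * s = 2 * (3 * s) by ring, u0, e1]
    · rw [show 6 * s + 2 = 2 * (3 * s + 1) by ring, u0, e2]
    · rw [show 6 * s + 4 = 2 * (3 * s + 2) by ring, u0]
      revert this e1 e2
      cases lit (3 * s) <;> cases lit (3 * s + 1) <;> cases lit (3 * s + 2) <;> decide
  have c3 : ∀ i < 6 * φ.length, us i = true → ch (site φ i) = i := fun i hi hu => by
    rcases site_eq (φ := φ) i with ⟨e1, e2⟩ | ⟨e1, e2⟩
    · have hs : i / 6 < φ.length := by omega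
      have := ha _ hs
      change Ex1 (lit _) (lit _) (lit _) at this
      simp only [us, e1, if_true] at hu
      simp only [ch, e2, hs, if_true]
      have : i / 2 = 3 * (i / 6) ∨ i / 2 = 3 * (i / 6) + 1 ∨ i / 2 = 3 * (i / 6) + 2 := by omega
      rcases this with e | e | e <;> rw [e] at hu <;> revert this hu <;>
        cases lit (3 * (i / 6)) <;> cases lit (3 * (i / 6) + 1) <;> cases lit (3 * (i / 6) + 2) <;>
        simp [Ex1] <;> omega
    · simp only [ch, e2]
      rw [if_neg (by omega)]; omega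
  have c4 : ∀ i < 6 * φ.length, ∀ t, us (par φ i t) = !us i := fun i hi t => by
    have k : ∀ o b, b ≤ 1 → us (2 * o + b) = xor (a (litAt φ o).1) (decide (b = sg φ o)) := by
      intro o b hb
      simp only [us, lit, sg, show (2 * o + b) / 2 = o by omega, show (2 * o + b) % 2 = b by omega]
      generalize a (litAt φ o).1 = x
      rcases Bool.eq_false_or_eq_true (litAt φ o).2 with y | y <;> simp only [y] <;>
        interval_cases b <;> cases x <;> rfl
    have s0 := sg_le (φ := φ) (i / 2)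
    have e0 : us i = xor (a (litAt φ (i / 2)).1) (decide (i % 2 = sg φ (i / 2))) := by
      rw [← k _ _ (by omega), Nat.div_add_mod]
    rw [e0]
    by_cases h : t < 4
    · rw [par_lo h, k _ _ (by omega)]
      have : decide (1 - i % 2 = sg φ (i / 2)) = !decide (i % 2 = sg φ (i / 2)) := by
        rw [Bool.eq_iff_iff]; simp; omega
      rw [this]; simp
    by_cases e : i % 2 = sg φ (i / 2)
    · have s1 := sg_le (φ := φ) (nx φ (i / 2))
      rw [par_nx h e, k _ _ (by omega), (nx_spec (by omega)).2.1,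
        decide_eq_false (show ¬ 1 - sg φ (nx φ (i / 2)) = sg φ (nx φ (i / 2)) by omega)]
      simp [e]
    · rw [par_pv h e, k _ _ (sg_le _), (pv_spec (by omega)).2.1]
      simp [e]
  let ν : ℕ × ℕ → ℕ × ℕ := fun c => if c.2 < 8 then (if us c.1 = true then (if c.2 = 0 then (site φ c.1, 8)
      else if c.2 = 7 then (site φ c.1, 9) else if c.2 % 2 = 1 then (c.1, c.2 + 1) else (c.1, c.2 - 1))
      else if c.2 % 2 = 0 then (c.1, c.2 + 1) else (c.1, c.2 - 1))
    else if c.2 = 8 then (if us (ch c.1) = true then (ch c.1, 0) else (c.1, 9))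
    else (if us (ch c.1) = true then (ch c.1, 7) else (c.1, 8))
  refine ⟨ν, ?_, fun S s0 s1 s2 => ?_⟩
  · rintro ⟨i, t⟩ (⟨h1, h2⟩ | ⟨h1, h2⟩) <;> simp only at h1 h2
    · have := site_eq (φ := φ) i
      cases hu : us i
      · interval_cases t <;> simp [ν, hu, Val, OO_iff, h2]
      · have := c3 i h2 hu
        interval_cases t <;> simp [ν, hu, Val, OO_iff, h2, this] <;> omega
    · obtain ⟨k1, k2⟩ := c1 i h2
      cases hu : us (ch i)
      · have : φ.length ≤ i := by by_contra e; rw [c2 i (by omega)] at hu; cases hu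
        rcases h1 with rfl | rfl <;> simp [ν, hu, Val, OO_iff, h2, this]
      · rcases h1 with rfl | rfl <;> simp [ν, hu, Val, OO_iff, k1, k2]
  have v0 : ∀ {i t}, i < 6 * φ.length → t < 8 → Val φ (i, t) := fun hi ht => Or.inl ⟨ht, hi⟩
  have path : ∀ i < 6 * φ.length, us i = true → S (i, 0) → ∀ t < 8, S (i, t) := by
    intro i hi hu h0 t
    induction t with
    | zero => exact fun _ => h0
    | succ t ih =>
      intro ht
      have k0 := ih (by omega)
      by_cases e : t % 2 = 1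
      · have := s2 _ (v0 hi (by omega)) k0
        simpa [ν, hu, e, show t < 8 by omega, show t ≠ 0 by omega, show t ≠ 7 by omega] using this
      · obtain ⟨k1, k2, -⟩ := par_spec hi t
        have k3 := s1 _ (v0 hi (by omega)) k0
        rw [mu_lo (by omega)] at k3
        have k4 : S (par φ i t, t + 1) := by
          simpa [ν, c4 i hi, hu, show t % 2 = 0 by omega, show t < 8 by omega] using
            s2 _ (v0 k1 (by omega)) k3
        have k5 := s1 _ (v0 k1 ht) k4
        rwa [mu_lo ht, par_congr _ (t := t + 1) (s := t) (by omega), k2] at k5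
  have e89 : ∀ s < 4 * φ.length, S (s, 8) → S (s, 9) := fun s hs h8 => by
    have k := s2 _ (Or.inr ⟨Or.inl rfl, hs⟩) h8
    obtain ⟨k1, k2⟩ := c1 s hs
    cases hu : us (ch s)
    · simpa [ν, hu] using k
    · simpa [ν, hu, k2] using s2 _ (v0 k1 (by omega)) (path _ k1 hu (by simpa [ν, hu] using k) 7 (by omega))
  have e8 : ∀ s < 4 * φ.length, S (s, 8) := by
    intro s
    induction s with
    | zero => exact fun _ => s0
    | succ s ih =>
      intro hs
      have := s1 _ (Or.inr ⟨Or.inr rfl, by simp only; omega⟩) (e89 s (by omega) (ih (by omega)))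
      rwa [mu_9, Nat.mod_eq_of_lt hs] at this
  have used : ∀ i < 6 * φ.length, us i = true → ∀ t < 8, S (i, t) := fun i hi hu => by
    have hs : site φ i < 4 * φ.length := by have := site_eq (φ := φ) i; omega
    refine path i hi hu ?_
    simpa [ν, c3 i hi hu, hu] using s2 _ (Or.inr ⟨Or.inl rfl, hs⟩) (e8 _ hs)
  rintro ⟨i, t⟩ (⟨h1, h2⟩ | ⟨rfl | rfl, h2⟩)
  · cases hu : us i
    · obtain ⟨k1, k2, -⟩ := par_spec h2 t
      have := s1 _ (v0 k1 h1) (used _ k1 (by rw [c4 i h2, hu]; rfl) t h1)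
      rwa [mu_lo h1, k2] at this
    · exact used i h2 hu t h1
  · exact e8 i h2
  · exact e89 i h2 (e8 i h2)

theorem mem_cores {c} : c ∈ cores φ ↔ Val φ c := by
  obtain ⟨i, t⟩ := c
  simp only [cores, List.mem_append, List.pair_mem_product, List.mem_range, Val, List.mem_cons,
    List.not_mem_nil, or_false]
  omega

theorem cores_nodup : (cores φ).Nodup := by
  refine List.Nodup.append (List.nodup_range.product List.nodup_range)
    (List.nodup_range.product (by simp)) ?_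
  rintro ⟨i, t⟩ h1 h2
  simp only [List.pair_mem_product, List.mem_range, List.mem_cons, List.not_mem_nil, or_false] at h1 h2
  omega

abbrev KK (φ : F3) := {c // Val φ c}

@[reducible] def fin (φ : F3) : Fintype (KK φ) := Fintype.subtype (cores φ).toFinset fun _ => by simp [mem_cores]

def DD (φ : F3) : Core (KK φ) where
  μ c := ⟨mu φ c.1, (mu_spec c.2).1⟩
  O c d := OO φ c.1 d.1
  inv c := Subtype.ext (mu_spec c.2).2.1
  ne c e := (mu_spec c.2).2.2 (congrArg Subtype.val e)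
  symm _ _ h := h.symm
  irr c h := by
    obtain ⟨⟨i, t⟩, _⟩ := c
    rw [OO_iff] at h; omega

theorem good_iff (h : Val φ (0, 8)) : (DD φ).Good ⟨_, h⟩ ↔ Good' φ := by
  classical
  constructor
  · rintro ⟨ν, h1, h2, h3⟩
    refine ⟨fun c => if hc : Val φ c then (ν ⟨c, hc⟩).1 else c, fun c hc => ?_,
      fun S s0 s1 s2 c hc => h3 (fun c => S c.1) s0 (fun c => s1 c.1 c.2) (fun c k => ?_) ⟨c, hc⟩⟩
    · simp only [dif_pos hc, dif_pos (ν ⟨c, hc⟩).2, Subtype.coe_eta, h1, true_and]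
      exact ⟨(ν _).2, h2 ⟨c, hc⟩⟩
    · simpa only [dif_pos c.2] using s2 c.1 c.2 k
  · rintro ⟨ν, h1, h2⟩
    refine ⟨fun c => ⟨ν c.1, (h1 c.1 c.2).1⟩, fun c => Subtype.ext (h1 c.1 c.2).2.1,
      fun c => (h1 c.1 c.2).2.2, fun S s0 s1 s2 c => ?_⟩
    exact h2 (fun c => ∀ hc, S ⟨c, hc⟩) (fun _ => s0) (fun c hc k _ => s1 ⟨c, hc⟩ (k hc))
      (fun c hc k _ => s2 ⟨c, hc⟩ (k hc)) c.1 c.2 c.2

theorem iso (h : ℕ) : Nonempty (graphOf (red h φ).1 (red h φ).2 ≃g (DD φ).tail h) := by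
  obtain ⟨e, e1, e2, e3⟩ := tg_spec (Vs := verts h φ) (cores_nodup.product List.nodup_range)
    (rel h φ) ((0, 0), 0)
  have m : ∀ x, x ∈ verts h φ ↔ Val φ x.1 ∧ x.2 < h + 2 := fun ⟨c, s⟩ => by
    simp [verts, mem_cores]
  let g : Fin (verts h φ).length → KK φ × Fin (h + 2) := fun u =>
    (⟨(e u).1, ((m _).1 ((e2 _).2 ⟨u, rfl⟩)).1⟩, ⟨(e u).2, ((m _).1 ((e2 _).2 ⟨u, rfl⟩)).2⟩)
  have hg : Function.Bijective g := ⟨fun u v k => e1 (Prod.ext (congrArg (fun x => x.1.1) k)
    (congrArg (fun x => x.2.1) k)), fun x => by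
      obtain ⟨u, hu⟩ := (e2 (x.1.1, x.2.1)).1 ((m _).2 ⟨x.1.2, x.2.2⟩)
      exact ⟨u, Prod.ext (Subtype.ext (congrArg Prod.fst hu)) (Fin.ext (congrArg Prod.snd hu))⟩⟩
  refine ⟨⟨Equiv.ofBijective g hg, fun {u v} => ?_⟩⟩
  refine Iff.trans ?_ (e3 u v).symm
  have k : ((DD φ).tail h).Adj (g u) (g v) ↔ rel h φ (e u) (e v) = true ∨ rel h φ (e v) (e u) = true := by
    have k1 := (mu_spec (g u).1.2).2.1
    have k2 := (mu_spec (g v).1.2).2.1
    simp only [Core.adj, g, DD, Subtype.mk.injEq, rel, OO, Bool.or_eq_true, Bool.and_eq_true,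
      decide_eq_true_eq] at k1 k2 ⊢
    grind
  refine ⟨fun k' => ⟨fun e' => k'.ne (congrArg g (e1 e')), k.1 k'⟩, fun k' => k.2 k'.2⟩

theorem hard {j : ℕ} (hj : 26 ≤ j) : NPH (fun p : ℕ × List (ℕ × ℕ) => (Hgraph j).Free (graphOf p.1 p.2))
    fun p => (graphOf p.1 p.2).IsHamiltonian := by
  refine one3_nph.reduce (red j) (pt_red j) fun φ hφ => ?_
  obtain ⟨e⟩ := iso (φ := φ) j
  have h0 : Val φ (0, 8) := Or.inr ⟨Or.inl rfl, by simp only; omega⟩
  letI := fin φ
  refine ⟨(SimpleGraph.free_congr_right e).2 ?_, fun h => ham_iso e.symm ((DD φ).ham_of_good j _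
    ((good_iff h0).2 (yes h))), fun h => no ((good_iff h0).1 ((DD φ).good_of_ham j _ (ham_iso e h)))⟩
  refine (DD φ).free j (by omega) hj (fun c => if c.1.2 < 8 then site φ c.1.1 else c.1.1)
    (fun c => if c.1.2 < 8 then 8 * (c.1.1 / 2 % 3) + c.1.2 else 16 + c.1.2) ?_ ?_ ?_
  · rintro ⟨⟨i, t⟩, h1⟩ ⟨⟨i', t'⟩, h2⟩ h
    simp only [DD, OO_iff] at h ⊢
    split_ifs <;> grind
  · rintro ⟨⟨i, t⟩, h1⟩
    simp only [Val] at h1 ⊢
    split_ifs <;> omega
  · rintro ⟨⟨i, t⟩, h1⟩ ⟨⟨i', t'⟩, h2⟩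
    have := site_eq (φ := φ) i
    have := site_eq (φ := φ) i'
    intro k1 k2
    refine Subtype.ext (show (i, t) = (i', t') from ?_)
    simp only [Val] at h1 h2 k1 k2
    rw [Prod.mk.injEq]
    split_ifs at k1 k2 <;> omega

end Pool.Agent.Lead.Ham
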