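import Pool.Agent.H38.NP.Defs

/-!
The trees `H_j`.
-/

namespace Pool.Agent.Lead.Ham

/-- The tree `H_j`: a path `p_0, …, p_j` (the vertices `inl i`), two pendant vertices
`inr (false, _)` attached to `p_0` and two pendant vertices `inr (true, _)` attached to `p_j`. -/
def Hgraph (j : ℕ) : SimpleGraph (Fin (j + 1) ⊕ Bool × Bool) :=
  SimpleGraph.fromRel fun x y => (∃ i i' : Fin (j + 1), x = .inl i ∧ y = .inl i' ∧ i.val + 1 = i'.val) ∨
    (∃ b, x = .inl 0 ∧ y = .inr (false, b)) ∨ (∃ b, x = .inl (Fin.last j) ∧ y = .inr (true, b))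

end Pool.Agent.Lead.Ham
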